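import Pool.Agent.helper70.BN.RellCore
import Pool.Agent.helper23.BN.Basic

/-! # MP_94a57f_an, module A2: the Rellich theorem in the Dirichlet space of a ball -/

set_option autoImplicit false
open MeasureTheory Filter Topology Set Metric
open scoped ContDiff Gradient RealInnerProductSpace ENNReal

noncomputable section
namespace Pool.Agent.helper13.BN
namespace Rell

variable {N : ℕ}

theorem sob_two (hN : 3 ≤ N) (R : ℝ) : ∃ S : ℝ, 0 < S ∧ ∀ w ∈ DD (ball (0 : E N) R),
    MemLp (fn w) 2 volume ∧ eLpNorm (fn w) 2 volume ≤ ENNReal.ofReal (S * ‖w‖) := by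
  obtain ⟨S, hS, h⟩ := exists_sob_q hN R (q := 2) one_le_two (two_le_ts hN)
  refine ⟨S, hS, fun w hw => ?_⟩
  obtain ⟨h1, h2⟩ := h w hw
  rw [Mq2] at h1
  rw [nq2] at h2
  exact ⟨h1, (ENNReal.le_ofReal_iff_toReal_le h1.2.ne (by positivity)).2 h2⟩

theorem isClosed_DD (Ω : Set (E N)) : IsClosed (DD Ω : Set (LV N)) :=
  Submodule.isClosed_topologicalClosure _

instance complete_DD (Ω : Set (E N)) : CompleteSpace (DD Ω) :=
  (isClosed_DD Ω).completeSpace_coe

theorem isGrad_mem {Ω : Set (E N)} {φ : E N → ℝ} {W : LV N} (h : IsTest Ω φ) (hW : IsGrad W φ) :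
    W ∈ DD Ω :=
  Submodule.le_topologicalClosure _ (Submodule.subset_span ⟨φ, h, hW⟩)

theorem exists_rep_fn (hN : 3 ≤ N) (R : ℝ) {g : E N → ℝ} (hg : MemLp g 2 volume) :
    ∃ u : LV N, ∀ w ∈ DD (ball (0 : E N) R), ∫ x, fn w x * g x = ⟪w, u⟫ := by
  obtain ⟨S, hS, hSob⟩ := sob_two (N := N) hN R
  have hU : ∀ w ∈ DD (ball (0 : E N) R), w ∈ DD (univ : Set (E N)) := fun w hw =>
    DD_mono (subset_univ _) hw
  have hint : ∀ w ∈ DD (ball (0 : E N) R), Integrable (fun x => fn w x * g x) := fun w hw =>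
    (hSob w hw).1.integrable_mul hg
  let L : DD (ball (0 : E N) R) →ₗ[ℝ] ℝ :=
    { toFun := fun w => ∫ x, fn (w : LV N) x * g x
      map_add' := by
        intro w w'
        rw [← integral_add (hint _ w.2) (hint _ w'.2)]
        apply integral_congr_ae
        filter_upwards [fn_add hN (hU _ w.2) (hU _ w'.2)] with x hx
        rw [Submodule.coe_add, hx]
        ring
      map_smul' := by
        intro c w
        rw [RingHom.id_apply, smul_eq_mul, ← integral_const_mul]
        apply integral_congr_ae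
        filter_upwards [fn_smul hN c (hU _ w.2)] with x hx
        rw [Submodule.coe_smul, hx]
        ring }
  have hbound : ∀ w, ‖L w‖ ≤ (S * (eLpNorm g 2 volume).toReal) * ‖w‖ := by
    intro w
    have h1 := (hSob _ w.2)
    have e1 : L w = ⟪hg.toLp, h1.1.toLp⟫ := by
      rw [L2.inner_def]
      apply integral_congr_ae
      filter_upwards [hg.coeFn_toLp, h1.1.coeFn_toLp] with x hx hx'
      rw [hx, hx']
      simp
    rw [e1]
    refine (norm_inner_le_norm _ _).trans ?_
    rw [Lp.norm_toLp, Lp.norm_toLp]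
    have h2 : (eLpNorm (fn (w : LV N)) 2 volume).toReal ≤ S * ‖w‖ :=
      ENNReal.toReal_le_of_le_ofReal (by positivity) h1.2
    have h3 : 0 ≤ (eLpNorm g 2 volume).toReal := ENNReal.toReal_nonneg
    nlinarith
  let L' : StrongDual ℝ (DD (ball (0 : E N) R)) := L.mkContinuous _ hbound
  refine ⟨((InnerProductSpace.toDual ℝ _).symm L' : DD (ball (0 : E N) R)), fun w hw => ?_⟩
  have h4 : L' ⟨w, hw⟩ = ∫ x, fn w x * g x := rfl
  rw [← h4, real_inner_comm]
  have h5 := InnerProductSpace.toDual_symm_apply (𝕜 := ℝ) (x := (⟨w, hw⟩ : DD (ball (0 : E N) R)))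
    (y := L')
  rw [← h5]
  rfl

end Rell

open Rell in
theorem rellich {N : ℕ} (hN : 3 ≤ N) {R : ℝ} {w : ℕ → LV N} (hw : ∀ n, w n ∈ DD (ball (0 : E N) R))
    {C : ℝ} (hC : ∀ n, ‖w n‖ ≤ C) :
    ∃ (k : ℕ → ℕ) (v : LV N), StrictMono k ∧ v ∈ DD (ball (0 : E N) R) ∧
      (∀ h : LV N, Tendsto (fun n => ⟪w (k n), h⟫) atTop (𝓝 ⟪v, h⟫)) ∧
      Tendsto (fun n => nq 2 univ (fun x => fn (w (k n)) x - fn v x)) atTop (𝓝 0) := by
  obtain ⟨k, v, hk, hlim⟩ := weak_seq hC
  have hv : v ∈ DD (ball (0 : E N) R) := by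
    have h1 : v ∈ (DD (ball (0 : E N) R))ᗮᗮ := by
      rw [Submodule.mem_orthogonal']
      intro h hh
      have h2 : ∀ n, ⟪w (k n), h⟫ = 0 := fun n => (Submodule.mem_orthogonal _ _).1 hh _ (hw _)
      have h3 := hlim h
      simp only [h2] at h3
      exact (tendsto_nhds_unique h3 tendsto_const_nhds)
    rwa [Submodule.orthogonal_orthogonal] at h1
  refine ⟨k, v, hk, hv, hlim, ?_⟩
  obtain ⟨S, hS, hSob⟩ := sob_two (N := N) hN R
  have hU : ∀ w ∈ DD (ball (0 : E N) R), w ∈ DD (univ : Set (E N)) := fun w hw =>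
    DD_mono (subset_univ _) hw
  -- approximate the differences by test functions
  have hz : ∀ n, w (k n) - v ∈ DD (ball (0 : E N) R) := fun n => Submodule.sub_mem _ (hw _) hv
  have hap : ∀ n : ℕ, ∃ (φ : E N → ℝ) (W : LV N), IsTest (ball 0 R) φ ∧ IsGrad W φ ∧
      ‖W - (w (k n) - v)‖ ≤ 1 / ((n : ℝ) + 1) := by
    intro n
    obtain ⟨φ, W, h1, h2⟩ := DD_seq.1 (hz n)
    have h3 := (Metric.tendsto_atTop.1 h2) (1 / ((n : ℝ) + 1)) (by positivity)
    obtain ⟨m, hm⟩ := h3
    refine ⟨φ m, W m, (h1 m).1, (h1 m).2, ?_⟩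
    rw [← dist_eq_norm]
    exact (hm m le_rfl).le
  choose φ W hφ hW hWn using hap
  have hWD : ∀ n, W n ∈ DD (ball (0 : E N) R) := fun n => isGrad_mem (hφ n) (hW n)
  have hC0 : ∀ n, ‖W n‖ ≤ C + ‖v‖ + 1 := by
    intro n
    have h1 : (1 : ℝ) / (n + 1) ≤ 1 := by
      rw [div_le_one (by positivity)]
      have : (0 : ℝ) ≤ n := by positivity
      linarith
    calc ‖W n‖ = ‖(W n - (w (k n) - v)) + (w (k n) - v)‖ := by rw [sub_add_cancel]
      _ ≤ ‖W n - (w (k n) - v)‖ + ‖w (k n) - v‖ := norm_add_le _ _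
      _ ≤ 1 + (‖w (k n)‖ + ‖v‖) := by
          gcongr
          · exact (hWn n).trans h1
          · exact norm_sub_le _ _
      _ ≤ C + ‖v‖ + 1 := by
          have := hC (k n)
          linarith
  have hlim1 : Tendsto (fun n : ℕ => (1 : ℝ) / ((n : ℝ) + 1)) atTop (𝓝 0) :=
    tendsto_one_div_add_atTop_nhds_zero_nat
  have hWweak : ∀ h : LV N, Tendsto (fun n => ⟪W n, h⟫) atTop (𝓝 0) := by
    intro h
    have h1 : Tendsto (fun n => ⟪w (k n) - v, h⟫) atTop (𝓝 0) := by
      have := (hlim h).sub_const ⟪v, h⟫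
      rw [sub_self] at this
      refine this.congr fun n => ?_
      rw [inner_sub_left]
    have h2 : Tendsto (fun n => ⟪W n - (w (k n) - v), h⟫) atTop (𝓝 0) := by
      have hz1 := hlim1.mul_const ‖h‖
      rw [zero_mul] at hz1
      refine squeeze_zero_norm (fun n => ?_) hz1
      refine (norm_inner_le_norm _ _).trans ?_
      gcongr
      exact hWn n
    have h3 := h2.add h1
    rw [add_zero] at h3
    refine h3.congr fun n => ?_
    rw [← inner_add_left, sub_add_cancel]
  have hφL2 : ∀ n, eLpNorm (φ n) 2 volume ≤ ENNReal.ofReal (S * (C + ‖v‖ + 1)) := by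
    intro n
    have h1 := fn_test hN ⟨(hφ n).1, (hφ n).2.1, subset_univ _⟩ (hW n)
    rw [← eLpNorm_congr_ae h1]
    refine (hSob _ (hWD n)).2.trans (ENNReal.ofReal_le_ofReal ?_)
    gcongr
    exact hC0 n
  have hcore := rell_core hφ (C := C + ‖v‖ + 1) (M := S * (C + ‖v‖ + 1))
    (by
      intro n
      rw [← eLpNorm_congr_ae (hW n)]
      rw [← ENNReal.ofReal_toReal (Lp.eLpNorm_ne_top (W n)), ← Lp.norm_def]
      exact ENNReal.ofReal_le_ofReal (hC0 n)) hφL2
    (by
      intro g hg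
      obtain ⟨u, hu⟩ := exists_rep_fn hN R hg
      refine (hWweak u).congr fun n => ?_
      rw [← hu _ (hWD n)]
      apply integral_congr_ae
      filter_upwards [fn_test hN ⟨(hφ n).1, (hφ n).2.1, subset_univ _⟩ (hW n)] with x hx
      rw [hx])
  -- conclusion
  have hfin : Tendsto (fun n => eLpNorm (fun x => fn (w (k n)) x - fn v x) 2 volume)
      atTop (𝓝 0) := by
    have hup : ∀ n, eLpNorm (fun x => fn (w (k n)) x - fn v x) 2 volume ≤
        ENNReal.ofReal (S * (1 / ((n : ℝ) + 1))) + eLpNorm (φ n) 2 volume := by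
      intro n
      have h1 : (fun x => fn (w (k n)) x - fn v x) =ᵐ[volume]
          fun x => φ n x - fn (W n - (w (k n) - v)) x := by
        filter_upwards [fn_sub hN (hU _ (hw (k n))) (hU _ hv), fn_sub hN (hU _ (hWD n))
          (hU _ (hz n)), fn_test hN ⟨(hφ n).1, (hφ n).2.1, subset_univ _⟩ (hW n)] with x h2 h3 h4
        rw [h3, h4, h2]
        ring
      rw [eLpNorm_congr_ae h1]
      have hmem : W n - (w (k n) - v) ∈ DD (ball (0 : E N) R) := Submodule.sub_mem _ (hWD n) (hz n)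
      have h5 := eLpNorm_sub_le (p := 2) (μ := volume) (f := φ n)
        (g := fn (W n - (w (k n) - v))) (hφ n).1.continuous.aestronglyMeasurable
        (hSob _ hmem).1.1 (by norm_num)
      refine h5.trans ?_
      rw [add_comm]
      gcongr
      refine (hSob _ hmem).2.trans (ENNReal.ofReal_le_ofReal ?_)
      gcongr
      exact hWn n
    have hz0 : Tendsto (fun n : ℕ => ENNReal.ofReal (S * (1 / ((n : ℝ) + 1)))) atTop (𝓝 0) := by
      have := hlim1.const_mul S
      rw [mul_zero] at this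
      have h2 := ENNReal.tendsto_ofReal this
      rwa [ENNReal.ofReal_zero] at h2
    have h6 := hz0.add hcore
    rw [add_zero] at h6
    exact tendsto_of_tendsto_of_tendsto_of_le_of_le tendsto_const_nhds h6 (fun n => bot_le) hup
  have h7 := (ENNReal.tendsto_toReal ENNReal.zero_ne_top).comp hfin
  rw [ENNReal.toReal_zero] at h7
  refine h7.congr fun n => ?_
  rw [nq2]
  rfl

end Pool.Agent.helper13.BN
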