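import Pool.Agent.helper13.BN.Defs
import Pool.Agent.helper33.Insul.Moll

/-! # MP_94a57f_an, module A2, first part: mollification estimate, weak sequential compactness and
the core of the Rellich theorem -/

set_option autoImplicit false
open MeasureTheory Filter Topology Set Metric
open scoped ContDiff Gradient RealInnerProductSpace ENNReal

noncomputable section
namespace Pool.Agent.helper13.BN
namespace Rell

variable {N : ℕ}

theorem shift_est {φ : E N → ℝ} (h : ContDiff ℝ 1 φ) (t : E N) :
    ∫⁻ x, ‖φ (x - t) - φ x‖ₑ ^ 2 ≤ ‖t‖ₑ ^ 2 * ∫⁻ x, ‖fderiv ℝ φ x‖ₑ ^ 2 := by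
  have hc : Continuous (fderiv ℝ φ) := h.continuous_fderiv one_ne_zero
  have hpt : ∀ x, ‖φ (x - t) - φ x‖ₑ ^ 2 ≤
      ∫⁻ s in Ioc (0:ℝ) 1, ‖fderiv ℝ φ (x - s • t)‖ₑ ^ 2 * ‖t‖ₑ ^ 2 := by
    intro x
    have h1 : φ (x - t) - φ x = ∫ s in (0:ℝ)..1, fderiv ℝ φ (x - s • t) (-t) := by
      have hd : ∀ s ∈ uIcc (0:ℝ) 1, HasDerivAt (fun s : ℝ => φ (x - s • t))
          (fderiv ℝ φ (x - s • t) (-t)) s := by
        intro s _
        have h2 : HasDerivAt (fun s : ℝ => x - s • t) (-t) s := by
          simpa using ((hasDerivAt_id s).smul_const t).const_sub x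
        exact ((h.differentiable one_ne_zero) _).hasFDerivAt.comp_hasDerivAt s h2
      have hcc : Continuous fun s : ℝ => fderiv ℝ φ (x - s • t) (-t) := by fun_prop
      rw [intervalIntegral.integral_eq_sub_of_hasDerivAt hd (hcc.intervalIntegrable _ _)]
      simp
    rw [h1, intervalIntegral.integral_of_le zero_le_one]
    refine (pow_le_pow_left' (enorm_integral_le_lintegral_enorm _) 2).trans ?_
    have hm : AEMeasurable (fun s : ℝ => ‖fderiv ℝ φ (x - s • t) (-t)‖ₑ)
        (volume.restrict (Ioc (0:ℝ) 1)) := by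
      have hcc : Continuous fun s : ℝ => fderiv ℝ φ (x - s • t) (-t) := by fun_prop
      exact hcc.measurable.enorm.aemeasurable
    have h3 := Pool.Agent.helper33.Insul.lintegral_weight_sq_le
      (μ := volume.restrict (Ioc (0:ℝ) 1)) (fun _ => 1)
      (fun s => ‖fderiv ℝ φ (x - s • t) (-t)‖ₑ) measurable_const hm (by simp)
    simp only [one_mul] at h3
    refine h3.trans (lintegral_mono fun s => ?_)
    rw [← mul_pow]
    gcongr
    refine (ContinuousLinearMap.le_opENorm _ _).trans ?_
    rw [enorm_neg]
  calc ∫⁻ x, ‖φ (x - t) - φ x‖ₑ ^ 2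
      ≤ ∫⁻ x, ∫⁻ s in Ioc (0:ℝ) 1, ‖fderiv ℝ φ (x - s • t)‖ₑ ^ 2 * ‖t‖ₑ ^ 2 :=
        lintegral_mono hpt
    _ = ∫⁻ s in Ioc (0:ℝ) 1, ∫⁻ x, ‖fderiv ℝ φ (x - s • t)‖ₑ ^ 2 * ‖t‖ₑ ^ 2 := by
        rw [lintegral_lintegral_swap]
        apply Measurable.aemeasurable
        have : Continuous fun p : E N × ℝ => fderiv ℝ φ (p.1 - p.2 • t) := by fun_prop
        exact (this.measurable.enorm.pow_const 2).mul_const _
    _ = ∫⁻ s in Ioc (0:ℝ) 1, (∫⁻ x, ‖fderiv ℝ φ x‖ₑ ^ 2) * ‖t‖ₑ ^ 2 := by
        refine lintegral_congr fun s => ?_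
        have hm : Measurable fun x : E N => ‖fderiv ℝ φ (x - s • t)‖ₑ ^ 2 := by
          have : Continuous fun x : E N => fderiv ℝ φ (x - s • t) := by fun_prop
          exact this.measurable.enorm.pow_const 2
        rw [lintegral_mul_const _ hm]
        congr 1
        exact lintegral_sub_right_eq_self (fun x => ‖fderiv ℝ φ x‖ₑ ^ 2) (s • t)
    _ = ‖t‖ₑ ^ 2 * ∫⁻ x, ‖fderiv ℝ φ x‖ₑ ^ 2 := by
        simp [mul_comm]

open Pool.Agent.helper33.Insul (moll ker) in
theorem moll_est {φ : E N → ℝ} (h : ContDiff ℝ 1 φ) (hs : HasCompactSupport φ) (j : ℕ) :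
    eLpNorm (fun x => moll (ker N j) φ x - φ x) 2 volume ≤
      ENNReal.ofReal (1 / ((j : ℝ) + 1)) * eLpNorm (fun x => ∇ φ x) 2 volume := by
  have hρm : Measurable (ker N j) := (Pool.Agent.helper33.Insul.ker_contDiff j).continuous.measurable
  have hρe : Measurable fun x => ‖ker N j x‖ₑ := hρm.enorm
  have hφi : Integrable φ := h.continuous.integrable_of_hasCompactSupport hs
  have hgrad : ∀ x, ‖∇ φ x‖ₑ = ‖fderiv ℝ φ x‖ₑ := by
    intro x
    rw [gradient, LinearIsometryEquiv.enorm_map]
  have key : ∫⁻ x, ‖moll (ker N j) φ x - φ x‖ₑ ^ 2 ≤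
      ENNReal.ofReal (1 / ((j : ℝ) + 1)) ^ 2 * ∫⁻ x, ‖∇ φ x‖ₑ ^ 2 := by
    calc ∫⁻ x, ‖moll (ker N j) φ x - φ x‖ₑ ^ 2
        ≤ ∫⁻ x, ∫⁻ t, ‖ker N j t‖ₑ * ‖φ (x - t) - φ x‖ₑ ^ 2 := by
          refine lintegral_mono fun x => ?_
          have e1 : moll (ker N j) φ x - φ x = ∫ t, ker N j t • (φ (x - t) - φ x) := by
            rw [Pool.Agent.helper33.Insul.moll_apply]
            simp_rw [smul_sub]
            rw [integral_sub, integral_smul_const, Pool.Agent.helper33.Insul.ker_integral, one_smul]
            · have := Pool.Agent.helper33.Insul.moll_integrable j (f := φ) hφi.locallyIntegrable x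
              have h2 := this.comp_sub_left x
              simpa using h2
            · exact (Pool.Agent.helper33.Insul.ker_integrable j).smul_const _
          rw [e1]
          refine (pow_le_pow_left' (enorm_integral_le_lintegral_enorm _) 2).trans ?_
          simp only [enorm_smul]
          apply Pool.Agent.helper33.Insul.lintegral_weight_sq_le _ _ hρe
          · have : Continuous fun t => φ (x - t) - φ x := by
              have := h.continuous
              fun_prop
            exact this.measurable.enorm.aemeasurable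
          · exact Pool.Agent.helper33.Insul.ker_lintegral j
      _ = ∫⁻ t, ∫⁻ x, ‖ker N j t‖ₑ * ‖φ (x - t) - φ x‖ₑ ^ 2 := by
          rw [lintegral_lintegral_swap]
          apply Measurable.aemeasurable
          have : Continuous fun p : E N × E N => φ (p.1 - p.2) - φ p.1 := by
            have := h.continuous
            fun_prop
          exact (hρe.comp measurable_snd).mul (this.measurable.enorm.pow_const 2)
      _ ≤ ∫⁻ t, ‖ker N j t‖ₑ * (ENNReal.ofReal (1 / ((j : ℝ) + 1)) ^ 2 * ∫⁻ x, ‖∇ φ x‖ₑ ^ 2) := by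
          refine lintegral_mono fun t => ?_
          have hm : Measurable fun x : E N => ‖φ (x - t) - φ x‖ₑ ^ 2 := by
            have : Continuous fun x : E N => φ (x - t) - φ x := by
              have := h.continuous
              fun_prop
            exact this.measurable.enorm.pow_const 2
          rw [lintegral_const_mul _ hm]
          by_cases ht : t ∈ ball (0 : E N) (1 / ((j : ℝ) + 1))
          · gcongr
            refine (shift_est h t).trans ?_
            simp_rw [hgrad]
            gcongr
            rw [← ofReal_norm]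
            apply ENNReal.ofReal_le_ofReal
            rw [mem_ball_zero_iff] at ht
            exact ht.le
          · have : ker N j t = 0 := by
              rw [← Pool.Agent.helper33.Insul.ker_support (n := N) j] at ht
              simpa using ht
            simp [this]
      _ = ENNReal.ofReal (1 / ((j : ℝ) + 1)) ^ 2 * ∫⁻ x, ‖∇ φ x‖ₑ ^ 2 := by
          rw [lintegral_mul_const _ hρe, Pool.Agent.helper33.Insul.ker_lintegral, one_mul]
  rw [← Pool.Agent.helper33.Insul.eLpNorm_two_sq, ← Pool.Agent.helper33.Insul.eLpNorm_two_sq,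
    ← mul_pow] at key
  exact (ENNReal.pow_le_pow_left_iff (by norm_num)).1 key

open Pool.Agent.helper33.Insul (moll ker) in
theorem rell_core {R : ℝ} {φ : ℕ → E N → ℝ} (hφ : ∀ n, IsTest (ball 0 R) (φ n)) {C : ℝ}
    (hC : ∀ n, eLpNorm (fun x => ∇ (φ n) x) 2 volume ≤ ENNReal.ofReal C)
    {M : ℝ} (hM : ∀ n, eLpNorm (φ n) 2 volume ≤ ENNReal.ofReal M)
    (hw : ∀ g : E N → ℝ, MemLp g 2 volume →
      Tendsto (fun n => ∫ x, φ n x * g x) atTop (𝓝 0)) :
    Tendsto (fun n => eLpNorm (φ n) 2 volume) atTop (𝓝 0) := by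
  -- for each `j` the mollified functions tend to `0` in `L²`
  have hmoll : ∀ j : ℕ, Tendsto (fun n => eLpNorm (moll (ker N j) (φ n)) 2 volume) atTop (𝓝 0) := by
    intro j
    have hρc : Continuous (ker N j) := (Pool.Agent.helper33.Insul.ker_contDiff j).continuous
    have hρs := Pool.Agent.helper33.Insul.ker_compact (n := N) j
    have hρe : Measurable fun x => ‖ker N j x‖ₑ := hρc.measurable.enorm
    obtain ⟨B, hB⟩ := hρs.exists_bound_of_continuous hρc
    have hB0 : 0 ≤ B := (norm_nonneg _).trans (hB 0)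
    have hmeas : ∀ n, Measurable (moll (ker N j) (φ n)) := fun n =>
      (Pool.Agent.helper33.Insul.moll_contDiff j
        ((hφ n).1.continuous.integrable_of_hasCompactSupport (hφ n).2.1).locallyIntegrable).continuous.measurable
    -- bound
    have hbd : ∀ n x, ‖moll (ker N j) (φ n) x‖ₑ ^ 2 ≤
        (closedBall (0 : E N) (|R| + 1)).indicator
          (fun _ => ENNReal.ofReal B * ENNReal.ofReal M ^ 2) x := by
      intro n x
      by_cases hx : x ∈ closedBall (0 : E N) (|R| + 1)
      · rw [indicator_of_mem hx, Pool.Agent.helper33.Insul.moll_apply]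
        refine (pow_le_pow_left' (enorm_integral_le_lintegral_enorm _) 2).trans ?_
        simp only [enorm_smul]
        have hcφ := (hφ n).1.continuous
        have hc1 : Continuous fun t => φ n (x - t) := by fun_prop
        refine (Pool.Agent.helper33.Insul.lintegral_weight_sq_le _ _ hρe
          hc1.measurable.enorm.aemeasurable (Pool.Agent.helper33.Insul.ker_lintegral j)).trans ?_
        calc ∫⁻ t, ‖ker N j t‖ₑ * ‖φ n (x - t)‖ₑ ^ 2
            ≤ ∫⁻ t, ENNReal.ofReal B * ‖φ n (x - t)‖ₑ ^ 2 := by
              refine lintegral_mono fun t => ?_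
              gcongr
              rw [← ofReal_norm]
              exact ENNReal.ofReal_le_ofReal (hB t)
          _ = ENNReal.ofReal B * ∫⁻ t, ‖φ n t‖ₑ ^ 2 := by
              rw [lintegral_const_mul _ (hc1.measurable.enorm.pow_const 2)]
              congr 1
              exact lintegral_sub_left_eq_self (fun t => ‖φ n t‖ₑ ^ 2) x
          _ ≤ ENNReal.ofReal B * ENNReal.ofReal M ^ 2 := by
              gcongr
              rw [← Pool.Agent.helper33.Insul.eLpNorm_two_sq]
              gcongr
              exact hM n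
      · rw [indicator_of_notMem hx]
        have h0 : moll (ker N j) (φ n) x = 0 := by
          rw [Pool.Agent.helper33.Insul.moll_apply]
          have : ∀ t, ker N j t • φ n (x - t) = 0 := by
            intro t
            by_cases ht : t ∈ ball (0 : E N) (1 / ((j : ℝ) + 1))
            · have h1 : φ n (x - t) = 0 := by
                by_contra hne
                have h2 : x - t ∈ ball (0 : E N) R := (hφ n).2.2 (subset_tsupport _ hne)
                rw [mem_ball_zero_iff] at h2 ht
                rw [mem_closedBall_zero_iff, not_le] at hx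
                have h3 : ‖x‖ ≤ ‖x - t‖ + ‖t‖ := by
                  calc ‖x‖ = ‖(x - t) + t‖ := by rw [sub_add_cancel]
                    _ ≤ _ := norm_add_le _ _
                have h4 : 1 / ((j : ℝ) + 1) ≤ 1 := by
                  rw [div_le_one (by positivity)]
                  have : (0 : ℝ) ≤ j := by positivity
                  linarith
                have := le_abs_self R
                linarith
              rw [h1, smul_zero]
            · have : ker N j t = 0 := by
                rw [← Pool.Agent.helper33.Insul.ker_support (n := N) j] at ht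
                simpa using ht
              rw [this, zero_smul]
          simp only [this, integral_zero]
        rw [h0]
        simp
    -- pointwise
    have hpt : ∀ x, Tendsto (fun n => ‖moll (ker N j) (φ n) x‖ₑ ^ 2) atTop (𝓝 0) := by
      intro x
      have hg : MemLp (fun y => ker N j (x - y)) 2 volume :=
        (Pool.Agent.helper33.Insul.ker_shift_continuous j x).memLp_of_hasCompactSupport
          (Pool.Agent.helper33.Insul.ker_shift_compact j x)
      have h1 := hw _ hg
      have h2 : Tendsto (fun n => moll (ker N j) (φ n) x) atTop (𝓝 0) := by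
        refine h1.congr fun n => ?_
        rw [Pool.Agent.helper33.Insul.moll_apply']
        refine integral_congr_ae (Eventually.of_forall fun y => ?_)
        simp [mul_comm]
      have h3 := ENNReal.Tendsto.pow (n := 2) h2.enorm
      simpa using h3
    have hlim := tendsto_lintegral_of_dominated_convergence (μ := volume)
      (F := fun n x => ‖moll (ker N j) (φ n) x‖ₑ ^ 2) (f := fun _ => 0)
      ((closedBall (0 : E N) (|R| + 1)).indicator
          (fun _ => ENNReal.ofReal B * ENNReal.ofReal M ^ 2))
      (fun n => (hmeas n).enorm.pow_const 2) (fun n => Eventually.of_forall (hbd n))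
      (by
        rw [lintegral_indicator measurableSet_closedBall, setLIntegral_const]
        exact (ENNReal.mul_lt_top (ENNReal.mul_lt_top ENNReal.ofReal_lt_top
          (ENNReal.pow_lt_top ENNReal.ofReal_lt_top))
          (isCompact_closedBall _ _).measure_lt_top).ne)
      (Eventually.of_forall hpt)
    simp only [lintegral_zero] at hlim
    have h4 : Tendsto (fun n => (eLpNorm (moll (ker N j) (φ n)) 2 volume) ^ 2) atTop (𝓝 0) := by
      refine hlim.congr fun n => ?_
      rw [Pool.Agent.helper33.Insul.eLpNorm_two_sq]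
    have h5 := h4.ennrpow_const (1 / 2 : ℝ)
    rw [ENNReal.zero_rpow_of_pos (by norm_num)] at h5
    refine h5.congr fun n => ?_
    rw [← ENNReal.rpow_natCast, ← ENNReal.rpow_mul]
    norm_num
  rw [ENNReal.tendsto_nhds_zero]
  intro ε hε
  obtain ⟨j, hj⟩ : ∃ j : ℕ, ENNReal.ofReal (1 / ((j : ℝ) + 1)) * ENNReal.ofReal C ≤ ε / 2 := by
    have h1 : Tendsto (fun j : ℕ => ENNReal.ofReal (1 / ((j : ℝ) + 1) * C)) atTop (𝓝 0) := by
      have := (tendsto_one_div_add_atTop_nhds_zero_nat (𝕜 := ℝ)).mul_const C
      rw [zero_mul] at this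
      have h2 := ENNReal.tendsto_ofReal this
      rwa [ENNReal.ofReal_zero] at h2
    obtain ⟨j, hj⟩ := (ENNReal.tendsto_nhds_zero.1 h1 (ε / 2) (ENNReal.half_pos hε.ne')).exists
    refine ⟨j, ?_⟩
    rwa [← ENNReal.ofReal_mul (by positivity)]
  filter_upwards [ENNReal.tendsto_nhds_zero.1 (hmoll j) (ε / 2) (ENNReal.half_pos hε.ne')] with n hn
  have hm1 : AEStronglyMeasurable (moll (ker N j) (φ n)) volume :=
    (Pool.Agent.helper33.Insul.moll_contDiff j
        ((hφ n).1.continuous.integrable_of_hasCompactSupport (hφ n).2.1).locallyIntegrable).continuous.aestronglyMeasurable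
  have hm2 : AEStronglyMeasurable (φ n) volume := (hφ n).1.continuous.aestronglyMeasurable
  have h1 : eLpNorm (φ n) 2 volume ≤ eLpNorm (moll (ker N j) (φ n)) 2 volume +
      eLpNorm (fun x => moll (ker N j) (φ n) x - φ n x) 2 volume := by
    have h2 : φ n = moll (ker N j) (φ n) - (fun x => moll (ker N j) (φ n) x - φ n x) := by
      ext x; simp
    calc eLpNorm (φ n) 2 volume
        = eLpNorm (moll (ker N j) (φ n) - (fun x => moll (ker N j) (φ n) x - φ n x)) 2 volume := by
          rw [← h2]
      _ ≤ _ := eLpNorm_sub_le hm1 (hm1.sub hm2) (by norm_num)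
  refine h1.trans ?_
  calc eLpNorm (moll (ker N j) (φ n)) 2 volume +
      eLpNorm (fun x => moll (ker N j) (φ n) x - φ n x) 2 volume ≤ ε / 2 + ε / 2 := by
        gcongr
        refine (moll_est ((hφ n).1.of_le (by exact_mod_cast le_top)) (hφ n).2.1 j).trans ?_
        refine le_trans ?_ hj
        gcongr
        exact hC n
    _ = ε := ENNReal.add_halves ε

/-- sequential weak compactness of bounded sequences -/
theorem weak_seq {w : ℕ → LV N} {C : ℝ} (hC : ∀ n, ‖w n‖ ≤ C) :
    ∃ (k : ℕ → ℕ) (v : LV N), StrictMono k ∧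
      (∀ h : LV N, Tendsto (fun n => ⟪w (k n), h⟫) atTop (𝓝 ⟪v, h⟫)) := by
  have : Fact ((2 : ℝ≥0∞) ≠ ⊤) := ⟨by norm_num⟩
  have hsc := WeakDual.isSeqCompact_closedBall ℝ (LV N) 0 C
  have hx : ∀ n, (StrongDual.toWeakDual (InnerProductSpace.toDual ℝ (LV N) (w n))) ∈
      WeakDual.toStrongDual ⁻¹' Metric.closedBall (0 : StrongDual ℝ (LV N)) C := by
    intro n
    simpa using hC n
  obtain ⟨a, -, k, hk, hlim⟩ := hsc hx
  refine ⟨k, (InnerProductSpace.toDual ℝ (LV N)).symm (WeakDual.toStrongDual a), hk, ?_⟩
  intro h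
  have h1 := ((WeakDual.eval_continuous h).tendsto a).comp hlim
  have h2 : ⟪(InnerProductSpace.toDual ℝ (LV N)).symm (WeakDual.toStrongDual a), h⟫ = a h := by
    rw [InnerProductSpace.toDual_symm_apply]
    rfl
  rw [h2]
  exact h1

theorem nq2 (f : E N → ℝ) : nq 2 univ f = (eLpNorm f 2 volume).toReal := by simp [nq]

theorem Mq2 (f : E N → ℝ) : Mq 2 univ f ↔ MemLp f 2 volume := by simp [Mq]

theorem two_le_ts (hN : 3 ≤ N) : (2 : ℝ) ≤ ts N := by
  have : (3 : ℝ) ≤ N := by exact_mod_cast hN
  unfold ts
  rw [le_div_iff₀ (by linarith)]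
  linarith

end Rell
end Pool.Agent.helper13.BN
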